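import Mathlib

/-! Deterministic criterion for global synchronization. -/

set_option autoImplicit false

open Finset Real

namespace Pool.Agent.Q175.GS

/-- the pointwise estimate -/
lemma ptw {μ a x y e f : ℝ} (hμ : 0 ≤ μ) (ha : 0 ≤ a) (hxy : x ^ 2 + y ^ 2 = 1) (h1 : μ * x = a + e)
    (h2 : μ * y = f) : a ^ 2 * ((x - 1) ^ 2 + y ^ 2) ≤ 4 * (e ^ 2 + f ^ 2) := by
  have hx1 : x ≤ 1 := by nlinarith [sq_nonneg y]
  have hx2 : -1 ≤ x := by nlinarith [sq_nonneg y]
  have e1 : e = μ * x - a := by linarith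
  have e2 : e ^ 2 + f ^ 2 = μ ^ 2 - 2 * μ * a * x + a ^ 2 := by
    rw [e1, ← h2]
    have : (μ * x - a) ^ 2 + (μ * y) ^ 2 = μ ^ 2 * (x ^ 2 + y ^ 2) - 2 * μ * a * x + a ^ 2 := by ring
    rw [this, hxy, mul_one]
  have e3 : (x - 1) ^ 2 + y ^ 2 = 2 - 2 * x := by nlinarith
  rw [e2, e3]
  rcases le_or_gt 0 x with hx | hx
  · nlinarith [sq_nonneg (μ - a * x), mul_nonneg (mul_nonneg (sq_nonneg a) (by linarith : 0 ≤ 1 - x)) (by linarith : 0 ≤ 1 + 2 * x)]
  · have h3 : 0 ≤ -(μ * a * x) := by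
      have := mul_nonneg (mul_nonneg hμ ha) (by linarith : 0 ≤ -x)
      linarith
    nlinarith [sq_nonneg μ, mul_nonneg (sq_nonneg a) (by linarith : 0 ≤ 1 + x)]

section
variable {n : ℕ} (A : Fin n → Fin n → ℝ) (q : ℝ)

/-- the centred matrix -/
def DD (i j : Fin n) : ℝ := if i = j then 0 else A i j - q

lemma sum_A (hdiag : ∀ i, A i i = 0) (k : Fin n) (v : Fin n → ℝ) :
    ∑ j, A k j * v j = ∑ j, DD A q k j * v j + q * (∑ j, v j - v k) := by
  have h : ∀ j, A k j * v j = DD A q k j * v j + (q * v j - if k = j then q * v j else 0) := by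
    intro j
    unfold DD
    by_cases h : k = j
    · subst h; simp [hdiag]
    · simp [h]; ring
  rw [Finset.sum_congr rfl fun j _ => h j, Finset.sum_add_distrib, Finset.sum_sub_distrib, ← Finset.mul_sum]
  simp
  ring

/-- the operator bound in squared form -/
lemma op_sq {K : ℝ} (hK : 0 ≤ K)
    (hop : ∀ u v : Fin n → ℝ, ∑ i, ∑ j, u i * DD A q i j * v j ≤ K * √(∑ i, u i ^ 2) * √(∑ j, v j ^ 2))
    (v : Fin n → ℝ) : ∑ k, (∑ j, DD A q k j * v j) ^ 2 ≤ K ^ 2 * ∑ j, v j ^ 2 := by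
  set w : Fin n → ℝ := fun k => ∑ j, DD A q k j * v j with hw
  have h1 := hop w v
  have h2 : ∑ i, ∑ j, w i * DD A q i j * v j = ∑ k, w k ^ 2 := by
    refine Finset.sum_congr rfl fun i _ => ?_
    rw [sq]
    conv_rhs => rw [hw]
    simp only
    rw [Finset.mul_sum]
    refine Finset.sum_congr rfl fun j _ => by ring
  rw [h2] at h1
  have h3 : 0 ≤ ∑ k, w k ^ 2 := Finset.sum_nonneg fun _ _ => sq_nonneg _
  have h4 : 0 ≤ ∑ k, v k ^ 2 := Finset.sum_nonneg fun _ _ => sq_nonneg _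
  set P := √(∑ i, w i ^ 2)
  set Q := √(∑ i, v i ^ 2)
  have hP : P ^ 2 = ∑ k, w k ^ 2 := Real.sq_sqrt h3
  have hQ : Q ^ 2 = ∑ k, v k ^ 2 := Real.sq_sqrt h4
  have hP0 : 0 ≤ P := Real.sqrt_nonneg _
  have hQ0 : 0 ≤ Q := Real.sqrt_nonneg _
  rw [← hP, ← hQ]
  rw [← hP] at h1
  rcases eq_or_lt_of_le hP0 with h | h
  · have h0 : P ^ 2 = 0 := by rw [← h]; ring
    rw [h0]; positivity
  · have h5 : P ≤ K * Q := by
      have : P * P ≤ P * (K * Q) := by nlinarith
      exact le_of_mul_le_mul_left this h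
    nlinarith [mul_nonneg hK hQ0]

lemma op_quad {K : ℝ}
    (hop : ∀ u v : Fin n → ℝ, ∑ i, ∑ j, u i * DD A q i j * v j ≤ K * √(∑ i, u i ^ 2) * √(∑ j, v j ^ 2))
    (v : Fin n → ℝ) : |∑ i, ∑ j, v i * DD A q i j * v j| ≤ K * ∑ j, v j ^ 2 := by
  have h4 : 0 ≤ ∑ k, v k ^ 2 := Finset.sum_nonneg fun _ _ => sq_nonneg _
  have h1 := hop v v
  rw [mul_assoc, Real.mul_self_sqrt h4] at h1
  have h2 := hop (fun i => -v i) v
  simp only [neg_sq] at h2
  rw [mul_assoc, Real.mul_self_sqrt h4] at h2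
  have h3 : ∑ i, ∑ j, -v i * DD A q i j * v j = -∑ i, ∑ j, v i * DD A q i j * v j := by
    rw [← Finset.sum_neg_distrib]
    refine Finset.sum_congr rfl fun i _ => ?_
    rw [← Finset.sum_neg_distrib]
    refine Finset.sum_congr rfl fun j _ => by ring
  rw [h3] at h2
  exact abs_le.mpr ⟨by linarith, h1⟩

set_option maxHeartbeats 1000000 in
/-- the case of centred phases -/
lemma core (hn : 0 < n) (hsym : ∀ i j, A i j = A j i) (hdiag : ∀ i, A i i = 0) {K c : ℝ}
    (hq : 0 < q) (hc : 0 < c) (hc1 : c ≤ 1) (hK : 0 ≤ K) (hKm : K ≤ c / 16 * (q * n))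
    (hop : ∀ u v : Fin n → ℝ, ∑ i, ∑ j, u i * DD A q i j * v j ≤ K * √(∑ i, u i ^ 2) * √(∑ j, v j ^ 2))
    (hd : ∀ k, c * (q * n) ≤ ∑ j, A k j) (θ : Fin n → ℝ)
    (FO : ∀ k, ∑ j, A k j * sin (θ k - θ j) = 0)
    (SO : ∀ u : Fin n → ℝ, 0 ≤ ∑ i, ∑ j, A i j * cos (θ i - θ j) * (u i - u j) ^ 2)
    (hS : ∑ k, sin (θ k) = 0) (hR : 0 ≤ ∑ k, cos (θ k)) : ∀ k, cos (θ k) = 1 ∧ sin (θ k) = 0 := by
  have hn0 : (0:ℝ) < n := by exact_mod_cast hn
  set R := ∑ k, cos (θ k) with hRdef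
  set L : Fin n → ℝ := fun k => ∑ j, A k j * cos (θ k - θ j) with hL
  -- nonnegativity of L
  have hL0 : ∀ k, 0 ≤ L k := by
    intro k
    have h := SO (fun i => if i = k then 1 else 0)
    have e : ∀ i j : Fin n, A i j * cos (θ i - θ j) * ((if i = k then (1:ℝ) else 0) - (if j = k then 1 else 0)) ^ 2
        = (if i = k then A i j * cos (θ i - θ j) else 0) + (if j = k then A i j * cos (θ i - θ j) else 0) := by
      intro i j
      by_cases hi : i = k <;> by_cases hj : j = k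
      · subst hi; subst hj; simp [hdiag]
      · simp [hi, hj]
      · simp [hi, hj]
      · simp [hi, hj]
    simp only [e] at h
    rw [Finset.sum_congr rfl fun i _ => Finset.sum_add_distrib, Finset.sum_add_distrib] at h
    have e1 : ∑ i, ∑ j, (if i = k then A i j * cos (θ i - θ j) else 0) = L k := by
      rw [Finset.sum_comm]
      simp [hL]
    have e2 : ∑ i, ∑ j, (if j = k then A i j * cos (θ i - θ j) else 0) = L k := by
      simp only [Finset.sum_ite_eq', Finset.mem_univ, if_true, hL]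
      refine Finset.sum_congr rfl fun i _ => ?_
      rw [hsym i k, ← cos_neg, neg_sub]
    rw [e1, e2] at h
    linarith
  -- eigen equations
  have hE1 : ∀ k, ∑ j, A k j * cos (θ j) = L k * cos (θ k) := by
    intro k
    have : ∀ j, A k j * cos (θ j) = (A k j * cos (θ k - θ j)) * cos (θ k) + (A k j * sin (θ k - θ j)) * sin (θ k) := by
      intro j
      have h : cos (θ j) = cos (θ k - (θ k - θ j)) := by congr 1; ring
      rw [h, cos_sub (θ k)]
      ring
    rw [Finset.sum_congr rfl fun j _ => this j, Finset.sum_add_distrib, ← Finset.sum_mul, ← Finset.sum_mul, FO k]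
    ring
  have hE2 : ∀ k, ∑ j, A k j * sin (θ j) = L k * sin (θ k) := by
    intro k
    have : ∀ j, A k j * sin (θ j) = (A k j * cos (θ k - θ j)) * sin (θ k) - (A k j * sin (θ k - θ j)) * cos (θ k) := by
      intro j
      have h : sin (θ j) = sin (θ k - (θ k - θ j)) := by congr 1; ring
      rw [h, sin_sub (θ k)]
      ring
    rw [Finset.sum_congr rfl fun j _ => this j, Finset.sum_sub_distrib, ← Finset.sum_mul, ← Finset.sum_mul, FO k]
    ring
  have hF1 : ∀ k, (L k + q) * cos (θ k) = q * R + ∑ j, DD A q k j * cos (θ j) := by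
    intro k
    have h1 := hE1 k
    rw [sum_A A q hdiag] at h1
    rw [add_mul, ← h1]
    ring
  have hF2 : ∀ k, (L k + q) * sin (θ k) = ∑ j, DD A q k j * sin (θ j) := by
    intro k
    have h1 := hE2 k
    rw [sum_A A q hdiag, hS] at h1
    rw [add_mul, ← h1]
    ring
  have hcs : ∀ k, cos (θ k) ^ 2 + sin (θ k) ^ 2 = 1 := fun k => by rw [add_comm]; exact sin_sq_add_cos_sq _
  have hsum1 : ∑ k, cos (θ k) ^ 2 + ∑ k, sin (θ k) ^ 2 = n := by
    rw [← Finset.sum_add_distrib, Finset.sum_congr rfl fun k _ => hcs k]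
    simp
  -- step 1
  have hstep1 : 3 * (n:ℝ) ^ 2 / 8 ≤ R ^ 2 := by
    have h1 := SO (fun i => cos (θ i))
    have h2 := SO (fun i => sin (θ i))
    have h3 : 0 ≤ ∑ i, ∑ j, A i j * (cos (θ i - θ j) - cos (θ i - θ j) ^ 2) := by
      have e : ∑ i, ∑ j, A i j * (cos (θ i - θ j) - cos (θ i - θ j) ^ 2) =
          (1 / 2) * ((∑ i, ∑ j, A i j * cos (θ i - θ j) * (cos (θ i) - cos (θ j)) ^ 2) +
            ∑ i, ∑ j, A i j * cos (θ i - θ j) * (sin (θ i) - sin (θ j)) ^ 2) := by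
        rw [← Finset.sum_add_distrib, Finset.mul_sum]
        refine Finset.sum_congr rfl fun i _ => ?_
        rw [← Finset.sum_add_distrib, Finset.mul_sum]
        refine Finset.sum_congr rfl fun j _ => ?_
        have h4 : (cos (θ i) - cos (θ j)) ^ 2 + (sin (θ i) - sin (θ j)) ^ 2 = 2 - 2 * cos (θ i - θ j) := by
          rw [cos_sub]
          have a1 := hcs i
          have a2 := hcs j
          nlinarith
        calc A i j * (cos (θ i - θ j) - cos (θ i - θ j) ^ 2)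
            = (1 / 2) * (A i j * cos (θ i - θ j) * (2 - 2 * cos (θ i - θ j))) := by ring
          _ = _ := by rw [← h4]; ring
      rw [e]
      positivity
    have h4 : ∑ i, ∑ j, A i j * (cos (θ i - θ j) - cos (θ i - θ j) ^ 2) =
        (∑ i, ∑ j, DD A q i j * cos (θ i - θ j)) - (∑ i, ∑ j, DD A q i j * cos (θ i - θ j) ^ 2) +
          q * ((∑ i, ∑ j, cos (θ i - θ j)) - ∑ i, ∑ j, cos (θ i - θ j) ^ 2) := by
      rw [← Finset.sum_sub_distrib, ← Finset.sum_sub_distrib, Finset.mul_sum, ← Finset.sum_add_distrib]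
      refine Finset.sum_congr rfl fun i _ => ?_
      rw [← Finset.sum_sub_distrib, ← Finset.sum_sub_distrib, Finset.mul_sum, ← Finset.sum_add_distrib]
      refine Finset.sum_congr rfl fun j _ => ?_
      unfold DD
      by_cases h : i = j
      · subst h; simp
      · simp only [h, if_false]; ring
    have h5 : ∑ i, ∑ j, cos (θ i - θ j) = R ^ 2 := by
      have : ∑ i, ∑ j, cos (θ i - θ j) = R ^ 2 + (∑ k, sin (θ k)) ^ 2 := by
        rw [sq, sq, hRdef, Finset.sum_mul_sum, Finset.sum_mul_sum, ← Finset.sum_add_distrib]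
        refine Finset.sum_congr rfl fun i _ => ?_
        rw [← Finset.sum_add_distrib]
        exact Finset.sum_congr rfl fun j _ => cos_sub _ _
      rw [this, hS]; ring
    have e2 : ∀ i j : Fin n, cos (θ i - θ j) ^ 2 = 1 / 2 + 1 / 2 * cos (2 * θ i - 2 * θ j) := by
      intro i j
      rw [← mul_sub, cos_two_mul]; ring
    have h6 : (n:ℝ) ^ 2 / 2 ≤ ∑ i, ∑ j, cos (θ i - θ j) ^ 2 := by
      have : ∑ i, ∑ j, cos (θ i - θ j) ^ 2 = (n:ℝ) ^ 2 / 2 + 1 / 2 * ((∑ k, cos (2 * θ k)) ^ 2 + (∑ k, sin (2 * θ k)) ^ 2) := by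
        have e3 : (∑ k, cos (2 * θ k)) ^ 2 + (∑ k, sin (2 * θ k)) ^ 2 = ∑ i, ∑ j, cos (2 * θ i - 2 * θ j) := by
          rw [sq, sq, Finset.sum_mul_sum, Finset.sum_mul_sum, ← Finset.sum_add_distrib]
          refine Finset.sum_congr rfl fun i _ => ?_
          rw [← Finset.sum_add_distrib]
          exact Finset.sum_congr rfl fun j _ => (cos_sub _ _).symm
        rw [e3, Finset.mul_sum]
        have e4 : (n:ℝ) ^ 2 / 2 = ∑ _i : Fin n, ∑ _j : Fin n, (1:ℝ) / 2 := by simp; ring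
        rw [e4, ← Finset.sum_add_distrib]
        refine Finset.sum_congr rfl fun i _ => ?_
        rw [Finset.mul_sum, ← Finset.sum_add_distrib]
        exact Finset.sum_congr rfl fun j _ => e2 i j
      rw [this]
      have := sq_nonneg (∑ k, cos (2 * θ k))
      have := sq_nonneg (∑ k, sin (2 * θ k))
      linarith
    have quad2 : ∀ ψ : Fin n → ℝ, |∑ i, ∑ j, DD A q i j * cos (ψ i - ψ j)| ≤ K * n := by
      intro ψ
      have a1 := op_quad A q hop (fun i => cos (ψ i))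
      have a2 := op_quad A q hop (fun i => sin (ψ i))
      have a3 : ∑ i, ∑ j, DD A q i j * cos (ψ i - ψ j) = (∑ i, ∑ j, cos (ψ i) * DD A q i j * cos (ψ j)) +
          ∑ i, ∑ j, sin (ψ i) * DD A q i j * sin (ψ j) := by
        rw [← Finset.sum_add_distrib]
        refine Finset.sum_congr rfl fun i _ => ?_
        rw [← Finset.sum_add_distrib]
        refine Finset.sum_congr rfl fun j _ => ?_
        rw [cos_sub]; ring
      have a4 : ∑ k, cos (ψ k) ^ 2 + ∑ k, sin (ψ k) ^ 2 = n := by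
        rw [← Finset.sum_add_distrib, Finset.sum_congr rfl fun k _ => cos_sq_add_sin_sq (ψ k)]
        simp
      rw [a3]
      calc _ ≤ _ := abs_add_le _ _
        _ ≤ K * ∑ k, cos (ψ k) ^ 2 + K * ∑ k, sin (ψ k) ^ 2 := add_le_add a1 a2
        _ = K * n := by rw [← mul_add, a4]
    have h7 := abs_le.mp (quad2 θ)
    have h8 : -(K * n) ≤ ∑ i, ∑ j, DD A q i j * cos (θ i - θ j) ^ 2 := by
      have a1 : ∑ i, ∑ j, DD A q i j * cos (θ i - θ j) ^ 2 =
          1 / 2 * (∑ i, ∑ j, DD A q i j * cos ((fun _ => (0:ℝ)) i - (fun _ => (0:ℝ)) j)) +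
            1 / 2 * ∑ i, ∑ j, DD A q i j * cos ((fun k => 2 * θ k) i - (fun k => 2 * θ k) j) := by
        rw [Finset.mul_sum, Finset.mul_sum, ← Finset.sum_add_distrib]
        refine Finset.sum_congr rfl fun i _ => ?_
        rw [Finset.mul_sum, Finset.mul_sum, ← Finset.sum_add_distrib]
        refine Finset.sum_congr rfl fun j _ => ?_
        rw [e2 i j]
        simp
        ring
      have a2 := abs_le.mp (quad2 (fun _ => (0:ℝ)))
      have a3 := abs_le.mp (quad2 (fun k => 2 * θ k))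
      rw [a1]
      have b := add_le_add (mul_le_mul_of_nonneg_left a2.1 (by norm_num : (0:ℝ) ≤ 1 / 2))
        (mul_le_mul_of_nonneg_left a3.1 (by norm_num : (0:ℝ) ≤ 1 / 2))
      refine le_trans (le_of_eq ?_) b
      ring
    rw [h4, h5] at h3
    have h9 : 0 ≤ 2 * (K * n) + q * (R ^ 2 - n ^ 2 / 2) := by
      have : q * (R ^ 2 - ∑ i, ∑ j, cos (θ i - θ j) ^ 2) ≤ q * (R ^ 2 - n ^ 2 / 2) :=
        mul_le_mul_of_nonneg_left (by linarith) hq.le
      linarith [h7.2]
    have h10 : K * n ≤ q * (n ^ 2 / 16) := by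
      have : K ≤ 1 / 16 * (q * n) := by
        refine hKm.trans ?_
        have : 0 ≤ q * n := by positivity
        nlinarith
      nlinarith
    have h11 : 0 ≤ q * (R ^ 2 - 3 * n ^ 2 / 8) := by nlinarith
    have := nonneg_of_mul_nonneg_right h11 hq
    linarith
  -- step 2
  set V := ∑ k, ((cos (θ k) - 1) ^ 2 + sin (θ k) ^ 2) with hV
  have hVR : V = 2 * (n - R) := by
    have : ∀ k, (cos (θ k) - 1) ^ 2 + sin (θ k) ^ 2 = 2 - 2 * cos (θ k) := by
      intro k
      have := hcs k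
      nlinarith
    rw [hV, Finset.sum_congr rfl fun k _ => this k, Finset.sum_sub_distrib, ← Finset.mul_sum]
    simp
    ring
  have hstep2 : n - R ≤ n * c / 48 := by
    have h1 : ∀ k, (q * R) ^ 2 * ((cos (θ k) - 1) ^ 2 + sin (θ k) ^ 2) ≤
        4 * ((∑ j, DD A q k j * cos (θ j)) ^ 2 + (∑ j, DD A q k j * sin (θ j)) ^ 2) := fun k =>
      ptw (by have := hL0 k; linarith) (by positivity) (hcs k) (hF1 k) (hF2 k)
    have h2 : (q * R) ^ 2 * V ≤ 4 * (K ^ 2 * n) := by
      rw [hV, Finset.mul_sum]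
      refine (Finset.sum_le_sum fun k _ => h1 k).trans ?_
      rw [← Finset.mul_sum, Finset.sum_add_distrib]
      have a1 := op_sq A q hK hop (fun i => cos (θ i))
      have a2 := op_sq A q hK hop (fun i => sin (θ i))
      have : K ^ 2 * n = K ^ 2 * ∑ k, cos (θ k) ^ 2 + K ^ 2 * ∑ k, sin (θ k) ^ 2 := by rw [← mul_add, hsum1]
      rw [this]
      linarith
    have hK2 : K ^ 2 ≤ (c / 16 * (q * n)) ^ 2 := pow_le_pow_left₀ hK hKm 2
    have h3 : q ^ 2 * (3 * n ^ 2 / 8) * V ≤ (q * R) ^ 2 * V := by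
      have hV0 : 0 ≤ V := Finset.sum_nonneg fun _ _ => by positivity
      have : q ^ 2 * (3 * n ^ 2 / 8) ≤ (q * R) ^ 2 := by
        rw [mul_pow]
        exact mul_le_mul_of_nonneg_left hstep1 (by positivity)
      exact mul_le_mul_of_nonneg_right this hV0
    have h4 : q ^ 2 * (3 * n ^ 2 / 8) * V ≤ 4 * ((c / 16 * (q * n)) ^ 2 * n) := by
      refine h3.trans (h2.trans ?_)
      have := mul_le_mul_of_nonneg_right hK2 hn0.le
      linarith
    have h5 : (q ^ 2 * n ^ 2 * (3 / 8)) * V ≤ (q ^ 2 * n ^ 2 * (3 / 8)) * (n * c ^ 2 / 24) := by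
      calc (q ^ 2 * n ^ 2 * (3 / 8)) * V = q ^ 2 * (3 * n ^ 2 / 8) * V := by ring
        _ ≤ _ := h4
        _ = _ := by ring
    have h6 : V ≤ n * c ^ 2 / 24 := le_of_mul_le_mul_left h5 (by positivity)
    have h7 : (n:ℝ) * c ^ 2 ≤ n * c := by
      have : c ^ 2 ≤ c := by nlinarith
      exact mul_le_mul_of_nonneg_left this hn0.le
    rw [hVR] at h6
    linarith
  -- step 3
  have hstep3 : V = 0 := by
    have hV0 : 0 ≤ V := Finset.sum_nonneg fun _ _ => by positivity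
    set a : Fin n → ℝ := fun k => q * R + (∑ j, DD A q k j) with ha
    have ha1 : ∀ k, c / 2 * (q * n) ≤ a k := by
      intro k
      have h1 := sum_A A q hdiag k (fun _ => 1)
      simp only [mul_one, Finset.sum_const, Finset.card_univ, Fintype.card_fin, nsmul_eq_mul] at h1
      have h2 := hd k
      rw [h1] at h2
      have h3 : q * (n - R) ≤ q * (n * c / 48) := mul_le_mul_of_nonneg_left hstep2 hq.le
      have h4 : 0 ≤ q * n * c := by positivity
      simp only [ha]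
      nlinarith
    have h1 : ∀ k, (c / 2 * (q * n)) ^ 2 * ((cos (θ k) - 1) ^ 2 + sin (θ k) ^ 2) ≤
        4 * ((∑ j, DD A q k j * (cos (θ j) - 1)) ^ 2 + (∑ j, DD A q k j * sin (θ j)) ^ 2) := by
      intro k
      have h2 : (L k + q) * cos (θ k) = a k + ∑ j, DD A q k j * (cos (θ j) - 1) := by
        rw [hF1 k]
        simp only [ha, mul_sub, mul_one, Finset.sum_sub_distrib]
        ring
      have h0 : 0 ≤ c / 2 * (q * n) := by positivity
      have h3 := ptw (by have := hL0 k; linarith) (h0.trans (ha1 k)) (hcs k) h2 (hF2 k)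
      refine le_trans ?_ h3
      exact mul_le_mul_of_nonneg_right (pow_le_pow_left₀ h0 (ha1 k) 2) (by positivity)
    have h2 : (c / 2 * (q * n)) ^ 2 * V ≤ 4 * (K ^ 2 * V) := by
      rw [hV, Finset.mul_sum]
      refine (Finset.sum_le_sum fun k _ => h1 k).trans ?_
      rw [← Finset.mul_sum, Finset.sum_add_distrib]
      have a1 := op_sq A q hK hop (fun i => cos (θ i) - 1)
      have a2 := op_sq A q hK hop (fun i => sin (θ i))
      rw [Finset.sum_add_distrib, mul_add]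
      linarith
    have hK2 : K ^ 2 ≤ (c / 16 * (q * n)) ^ 2 := pow_le_pow_left₀ hK hKm 2
    have h3 : (c / 2 * (q * n)) ^ 2 * V ≤ 4 * ((c / 16 * (q * n)) ^ 2 * V) := by
      refine h2.trans ?_
      have := mul_le_mul_of_nonneg_right hK2 hV0
      linarith
    have h4 : 0 < (c * (q * n)) ^ 2 := by positivity
    have h5 : (c * (q * n)) ^ 2 * V * (15 / 64) ≤ 0 := by
      have e1 : (c / 2 * (q * n)) ^ 2 * V = (c * (q * n)) ^ 2 * V * (1 / 4) := by ring
      have e2 : 4 * ((c / 16 * (q * n)) ^ 2 * V) = (c * (q * n)) ^ 2 * V * (1 / 64) := by ring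
      rw [e1, e2] at h3
      linarith
    have h6 : (c * (q * n)) ^ 2 * V ≤ 0 := by linarith
    have h7 : V ≤ 0 := by
      by_contra hcon
      have := mul_pos h4 (not_le.mp hcon)
      linarith
    exact le_antisymm h7 hV0
  intro k
  have h1 : ∀ k ∈ Finset.univ, (cos (θ k) - 1) ^ 2 + sin (θ k) ^ 2 = 0 :=
    (Finset.sum_eq_zero_iff_of_nonneg fun _ _ => by positivity).mp hstep3
  have h2 := h1 k (Finset.mem_univ k)
  constructor
  · nlinarith [sq_nonneg (cos (θ k) - 1), sq_nonneg (sin (θ k))]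
  · nlinarith [sq_nonneg (cos (θ k) - 1), sq_nonneg (sin (θ k))]

/-- the general case -/
theorem det (hn : 0 < n) (hsym : ∀ i j, A i j = A j i) (hdiag : ∀ i, A i i = 0) {K c : ℝ}
    (hq : 0 < q) (hc : 0 < c) (hc1 : c ≤ 1) (hK : 0 ≤ K) (hKm : K ≤ c / 16 * (q * n))
    (hop : ∀ u v : Fin n → ℝ, ∑ i, ∑ j, u i * DD A q i j * v j ≤ K * √(∑ i, u i ^ 2) * √(∑ j, v j ^ 2))
    (hd : ∀ k, c * (q * n) ≤ ∑ j, A k j) (θ : Fin n → ℝ)
    (FO : ∀ k, ∑ j, A k j * sin (θ k - θ j) = 0)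
    (SO : ∀ u : Fin n → ℝ, 0 ≤ ∑ i, ∑ j, A i j * cos (θ i - θ j) * (u i - u j) ^ 2) :
    ∀ k l, cos (θ k - θ l) = 1 := by
  set Z : ℂ := ⟨∑ k, cos (θ k), ∑ k, sin (θ k)⟩ with hZ
  set φ := Complex.arg Z with hφ
  have h1 : ‖Z‖ * cos φ = ∑ k, cos (θ k) := Complex.norm_mul_cos_arg Z
  have h2 : ‖Z‖ * sin φ = ∑ k, sin (θ k) := Complex.norm_mul_sin_arg Z
  have hS : ∑ k, sin (θ k - φ) = 0 := by
    simp only [sin_sub, Finset.sum_sub_distrib, ← Finset.sum_mul]
    rw [← h1, ← h2]; ring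
  have hR : 0 ≤ ∑ k, cos (θ k - φ) := by
    simp only [cos_sub, Finset.sum_add_distrib, ← Finset.sum_mul]
    rw [← h1, ← h2]
    have : ‖Z‖ * cos φ * cos φ + ‖Z‖ * sin φ * sin φ = ‖Z‖ * (cos φ ^ 2 + sin φ ^ 2) := by ring
    rw [this, cos_sq_add_sin_sq, mul_one]
    exact norm_nonneg _
  have e : ∀ i j, (θ i - φ) - (θ j - φ) = θ i - θ j := fun i j => by ring
  have h := core A q hn hsym hdiag hq hc hc1 hK hKm hop hd (fun k => θ k - φ) (by simpa only [e] using FO)
    (by simpa only [e] using SO) hS hR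
  intro k l
  rw [← e k l, cos_sub, (h k).1, (h l).1, (h k).2, (h l).2]
  ring

end

end Pool.Agent.Q175.GS
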