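import Pool.Agent.Q175.GS.Net

/-! The final estimate. -/

set_option autoImplicit false

open Finset Real Filter Topology

namespace Pool.Agent.Q175.GS

section
variable {n : ℕ}

lemma DD_abs {q : ℝ} (h0 : 0 ≤ q) (h1 : q ≤ 1) (s : Fin n → Fin n → Bool) (i j : Fin n) : |DD (AA s) q i j| ≤ 2 := by
  unfold DD AA
  rw [abs_le]
  split_ifs <;> constructor <;> linarith

/-- the rows -/
lemma bad1 {d c : ℝ} (h0 : 0 ≤ d) (h1 : d ≤ 1 / 2) (hn : 0 < n) {t : ℝ} (ht : 0 ≤ t) (htc : t ≤ 2 * d * (n - 1) - c * (2 * d * n))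
    [∀ s : Fin n → Fin n → Bool, Decidable (∃ k ∈ (Finset.univ : Finset (Fin n)), ∑ j, AA s k j < c * (2 * d * n))] :
    ∑ s : Fin n → Fin n → Bool, (if ∃ k ∈ (Finset.univ : Finset (Fin n)), ∑ j, AA s k j < c * (2 * d * n) then wt d s else 0) ≤
      n * exp (-(t ^ 2 / (2 * n))) := by
  classical
  have h2 := union_bound (Finset.univ : Finset (Fin n)) (wt d) (wt_nonneg h0 h1) (fun (k : Fin n) (s : Fin n → Fin n → Bool) =>
    ∑ j, AA s k j < c * (2 * d * n)) (E := exp (-(t ^ 2 / (2 * n)))) (by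
      intro k _
      refine le_trans (Finset.sum_le_sum fun s _ => ?_) (row_prob h0 h1 hn k ht)
      have h3 : ∑ j, AA s k j = ∑ j, DD (AA s) (2 * d) k j + 2 * d * (n - 1) := by
        have := sum_A (AA s) (2 * d) (AA_diag s) k (fun _ => 1)
        simpa using this
      by_cases h : ∑ j, AA s k j < c * (2 * d * n)
      · rw [if_pos h, if_pos (by linarith)]
      · rw [if_neg h]
        split_ifs
        · exact wt_nonneg h0 h1 s
        · exact le_rfl)
  simpa using h2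

/-- the good event implies synchronization -/
lemma good {d c : ℝ} (h0 : 0 < d) (h1 : d ≤ 1 / 2) (hn : 0 < n) (hc : 0 < c) (hc1 : c ≤ 1)
    (hK : 30 * √(n:ℝ) ≤ c / 16 * (2 * d * n)) (s : Fin n → Fin n → Bool)
    (g1 : ¬ ∃ k ∈ (Finset.univ : Finset (Fin n)), ∑ j, AA s k j < c * (2 * d * n))
    (g2 : ¬ ∃ p ∈ NN n ×ˢ NN n, 13 * (n * √n) ≤ BF (DD (AA s) (2 * d)) (fun i => (p.1 i : ℝ) / 2) (fun i => (p.2 i : ℝ) / 2))
    (θ : Fin n → ℝ) (hθ : IsLocalMin (EE (AA s)) θ) (i j : Fin n) : ∃ k : ℤ, θ i - θ j = 2 * π * k := by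
  push Not at g1 g2
  have hn0 : (0:ℝ) < n := by exact_mod_cast hn
  have hb := final_bd (D := DD (AA s) (2 * d)) (T := 13 * (n * √n)) (DD_abs (by linarith) (by linarith) s)
    (fun k hk l hl => (g2 (k, l) (Finset.mem_product.2 ⟨hk, hl⟩)).le)
  have hop : ∀ u v : Fin n → ℝ, ∑ i, ∑ j, u i * DD (AA s) (2 * d) i j * v j ≤
      (30 * √(n:ℝ)) * √(∑ i, u i ^ 2) * √(∑ j, v j ^ 2) := by
    intro u v
    refine (Bd_op hn hb u v).trans ?_
    have : 16 / 7 * (13 * ((n:ℝ) * √n)) / n ≤ 30 * √(n:ℝ) := by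
      rw [div_le_iff₀ hn0]
      nlinarith [mul_nonneg hn0.le (sqrt_nonneg (n:ℝ))]
    gcongr
  have h := det (AA s) (2 * d) hn (AA_sym s) (AA_diag s) (K := 30 * √(n:ℝ)) (c := c) (by linarith) hc hc1 (by positivity) hK hop
    (fun k => g1 k (Finset.mem_univ k)) θ (FO_of (AA s) (AA_sym s) hθ) (fun u => (loc_min (AA s) hθ u).2) i j
  obtain ⟨m, hm⟩ := (Real.cos_eq_one_iff _).1 h
  exact ⟨m, by rw [← hm]; ring⟩

/-- the probability of synchronization -/
lemma prob_bd {d c : ℝ} (h0 : 0 < d) (h1 : d ≤ 1 / 2) (hn : 0 < n) (hc : 0 < c) (hc1 : c ≤ 1)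
    (hK : 30 * √(n:ℝ) ≤ c / 16 * (2 * d * n)) {t : ℝ} (ht : 0 ≤ t) (htc : t ≤ 2 * d * (n - 1) - c * (2 * d * n))
    (P : (Fin n → Fin n → Bool) → Prop) [DecidablePred P]
    (hP : ∀ s, (∀ θ : Fin n → ℝ, IsLocalMin (EE (AA s)) θ → ∀ i j, ∃ k : ℤ, θ i - θ j = 2 * π * k) → P s) :
    1 - n * exp (-(t ^ 2 / (2 * n))) - (1 / 2) ^ n ≤ ∑ s : Fin n → Fin n → Bool, (if P s then wt d s else 0) := by
  classical
  have b1 := bad1 h0.le h1 hn ht htc
  have b2 := bad2 h0.le h1 hn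
  have h : ∀ s : Fin n → Fin n → Bool, wt d s - (if ∃ k ∈ (Finset.univ : Finset (Fin n)), ∑ j, AA s k j < c * (2 * d * n) then wt d s else 0)
      - (if ∃ p ∈ NN n ×ˢ NN n, 13 * (n * √n) ≤ BF (DD (AA s) (2 * d)) (fun i => (p.1 i : ℝ) / 2) (fun i => (p.2 i : ℝ) / 2) then wt d s else 0)
      ≤ (if P s then wt d s else 0) := by
    intro s
    have hw := wt_nonneg h0.le h1 s
    by_cases g1 : ∃ k ∈ (Finset.univ : Finset (Fin n)), ∑ j, AA s k j < c * (2 * d * n)
    · rw [if_pos g1]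
      split_ifs <;> linarith
    · by_cases g2 : ∃ p ∈ NN n ×ˢ NN n, 13 * (n * √n) ≤ BF (DD (AA s) (2 * d)) (fun i => (p.1 i : ℝ) / 2) (fun i => (p.2 i : ℝ) / 2)
      · rw [if_neg g1, if_pos g2]
        split_ifs <;> linarith
      · have hp : P s := hP s fun θ hθ i j => good h0 h1 hn hc hc1 hK s g1 g2 θ hθ i j
        rw [if_neg g1, if_neg g2, if_pos hp]
        linarith
  have h2 := Finset.sum_le_sum fun s (_ : s ∈ (Finset.univ : Finset (Fin n → Fin n → Bool))) => h s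
  rw [Finset.sum_sub_distrib, Finset.sum_sub_distrib, wt_sum] at h2
  linarith

end

/-- the main statement -/
theorem main (ε : ℝ) (hε : 0 < ε) (δ : ℕ → ℝ) (hδ : ∀ n : ℕ, 0 ≤ δ n ∧ δ n ≤ 1 / 2)
    (hev : ∀ᶠ n : ℕ in atTop, (1 + ε) * √(log (n : ℝ) / (2 * (n : ℝ))) ≤ δ n)
    (P : ∀ n : ℕ, (Fin n → Fin n → Bool) → Prop) [∀ n, DecidablePred (P n)]
    (hP : ∀ n s, (∀ θ : Fin n → ℝ, IsLocalMin (EE (AA s)) θ → ∀ i j, ∃ k : ℤ, θ i - θ j = 2 * π * k) → P n s) :
    Tendsto (fun n : ℕ => ∑ s : Fin n → Fin n → Bool, (if P n s then wt (δ n) s else 0)) atTop (𝓝 1) := by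
  set c := ε / (4 * (1 + ε)) with hc
  have hc0 : 0 < c := by positivity
  have hc1 : c ≤ 1 / 4 := by
    rw [hc, div_le_div_iff₀ (by positivity) (by norm_num)]
    linarith
  have hce : (1 + ε) * (1 - 2 * c) = 1 + ε / 2 := by
    rw [hc]; field_simp; ring
  -- the upper bound
  have hup : ∀ n : ℕ, ∑ s : Fin n → Fin n → Bool, (if P n s then wt (δ n) s else 0) ≤ 1 := by
    intro n
    rw [← wt_sum (n := n) (δ n)]
    refine Finset.sum_le_sum fun s _ => ?_
    have := wt_nonneg (hδ n).1 (hδ n).2 s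
    split_ifs
    · exact le_rfl
    · exact this
  have hlow : ∀ᶠ n : ℕ in atTop, 1 - exp (-(ε * log n)) - (1 / 2) ^ n ≤ ∑ s : Fin n → Fin n → Bool, (if P n s then wt (δ n) s else 0) := by
    have hlogt : Tendsto (fun n : ℕ => log (n : ℝ)) atTop atTop := tendsto_log_atTop.comp tendsto_natCast_atTop_atTop
    have hcn : Tendsto (fun n : ℕ => c * (n : ℝ)) atTop atTop := tendsto_natCast_atTop_atTop.const_mul_atTop hc0
    filter_upwards [hev, hlogt.eventually_ge_atTop ((480 / c) ^ 2), hlogt.eventually_ge_atTop 1, hcn.eventually_ge_atTop 1,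
      eventually_gt_atTop 0] with n e1 e2 e3 e4 hn
    have hn0 : (0:ℝ) < n := by exact_mod_cast hn
    have hL : 0 ≤ log (n:ℝ) := by linarith
    have hsn : √(n:ℝ) ^ 2 = n := sq_sqrt hn0.le
    -- the key quantity
    set X := 2 * δ n * n with hX
    have hX1 : (1 + ε) * √(2 * n * log n) ≤ X := by
      have h1 : √(2 * n * log n) = 2 * n * √(log (n : ℝ) / (2 * (n : ℝ))) := by
        rw [show 2 * (n:ℝ) * log n = (2 * n) ^ 2 * (log (n : ℝ) / (2 * (n : ℝ))) by field_simp,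
          sqrt_mul (by positivity), sqrt_sq (by positivity)]
      rw [h1, hX]
      have := mul_le_mul_of_nonneg_left e1 (by positivity : (0:ℝ) ≤ 2 * n)
      linarith
    have hL2 : 0 < √(2 * n * log n) := sqrt_pos.2 (by positivity)
    have hX0 : 0 < X := lt_of_lt_of_le (by positivity) hX1
    have hd0 : 0 < δ n := by
      by_contra h
      have : δ n = 0 := le_antisymm (not_lt.1 h) (hδ n).1
      rw [hX, this] at hX0
      simp at hX0
    have hK : 30 * √(n:ℝ) ≤ c / 16 * (2 * δ n * n) := by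
      rw [← hX]
      have h2 : 480 / c * √(n:ℝ) ≤ X := by
        have h3 : 480 / c * √(n:ℝ) ≤ √(2 * n * log n) := by
          apply le_sqrt_of_sq_le
          rw [mul_pow, hsn]
          have : (480 / c) ^ 2 * n ≤ log n * n := mul_le_mul_of_nonneg_right e2 hn0.le
          nlinarith [mul_nonneg hn0.le hL]
        nlinarith
      have h4 : c / 16 * (480 / c * √(n:ℝ)) ≤ c / 16 * X := mul_le_mul_of_nonneg_left h2 (by positivity)
      have h5 : c / 16 * (480 / c * √(n:ℝ)) = 30 * √(n:ℝ) := by field_simp; norm_num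
      linarith
    set t := (1 + ε / 2) * √(2 * n * log n) with ht
    have ht0 : 0 ≤ t := by positivity
    have htc : t ≤ 2 * δ n * (n - 1) - c * (2 * δ n * n) := by
      have h6 : 2 * δ n ≤ c * X := by
        rw [hX]
        have := mul_le_mul_of_nonneg_left e4 (by linarith : 0 ≤ 2 * δ n)
        linarith
      have h7 : t ≤ (1 - 2 * c) * X := by
        rw [ht, ← hce]
        have := mul_le_mul_of_nonneg_left hX1 (by linarith : 0 ≤ 1 - 2 * c)
        linarith
      have h8 : 2 * δ n * (n - 1) - c * (2 * δ n * n) = X - 2 * δ n - c * X := by rw [hX]; ring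
      rw [h8]; linarith
    have hmain := prob_bd hd0 (hδ n).2 hn hc0 (by linarith : c ≤ 1) hK ht0 htc (P n) (hP n)
    refine le_trans ?_ hmain
    have h9 : n * exp (-(t ^ 2 / (2 * n))) ≤ exp (-(ε * log n)) := by
      have h10 : t ^ 2 / (2 * n) = (1 + ε / 2) ^ 2 * log n := by
        rw [ht, mul_pow, sq_sqrt (by positivity)]
        field_simp
      rw [h10]
      calc n * exp (-((1 + ε / 2) ^ 2 * log n)) = exp (log n) * exp (-((1 + ε / 2) ^ 2 * log n)) := by rw [exp_log hn0]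
        _ = exp (log n + -((1 + ε / 2) ^ 2 * log n)) := (exp_add _ _).symm
        _ ≤ exp (-(ε * log n)) := exp_le_exp.2 (by nlinarith [sq_nonneg ε])
    linarith
  have hlim : Tendsto (fun n : ℕ => 1 - exp (-(ε * log n)) - (1 / 2 : ℝ) ^ n) atTop (𝓝 (1 - 0 - 0)) := by
    refine (tendsto_const_nhds.sub ?_).sub (tendsto_pow_atTop_nhds_zero_of_lt_one (by norm_num) (by norm_num))
    apply tendsto_exp_atBot.comp
    apply tendsto_neg_atTop_atBot.comp
    exact (tendsto_log_atTop.comp tendsto_natCast_atTop_atTop).const_mul_atTop hε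
  rw [sub_zero, sub_zero] at hlim
  exact tendsto_of_tendsto_of_tendsto_of_le_of_le' hlim tendsto_const_nhds hlow (Eventually.of_forall hup)

end Pool.Agent.Q175.GS
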