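import Pool.Agent.Q175.GS.Det

/-! Local minima of the energy. -/

set_option autoImplicit false

open Finset Real Filter Topology

namespace Pool.Agent.Q175.GS

variable {n : ℕ} (A : Fin n → Fin n → ℝ)

/-- the energy -/
noncomputable def EE (φ : Fin n → ℝ) : ℝ := (1 / 2 : ℝ) * ∑ i, ∑ j, A i j * (1 - cos (φ i - φ j))

lemma tendsto_one_sub_cos (v : ℝ) : Tendsto (fun t : ℝ => (1 - cos (t * v)) / t ^ 2) (𝓝[≠] 0) (𝓝 (v ^ 2 / 2)) := by
  have h1 : HasDerivAt (fun t : ℝ => sin (t * (v / 2))) (cos (0 * (v / 2)) * (1 * (v / 2))) 0 :=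
    ((hasDerivAt_id (0:ℝ)).mul_const (v / 2)).sin
  have h2 := h1.tendsto_slope_zero
  simp only [zero_add, zero_mul, sin_zero, sub_zero, cos_zero, one_mul, smul_eq_mul] at h2
  have h3 := (h2.pow 2).const_mul 2
  have e : (2:ℝ) * (v / 2) ^ 2 = v ^ 2 / 2 := by ring
  rw [e] at h3
  refine h3.congr fun t => ?_
  have h4 : 1 - cos (t * v) = 2 * sin (t * (v / 2)) ^ 2 := by
    have : t * v = 2 * (t * (v / 2)) := by ring
    rw [this, cos_two_mul, ← sin_sq_add_cos_sq (t * (v / 2))]
    have := sin_sq_add_cos_sq (t * (v / 2))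
    nlinarith
  rw [h4, mul_pow, inv_pow]
  ring

lemma loc_min {θ : Fin n → ℝ} (hθ : IsLocalMin (EE A) θ) (u : Fin n → ℝ) :
    ∑ i, ∑ j, A i j * sin (θ i - θ j) * (u i - u j) = 0 ∧
      0 ≤ ∑ i, ∑ j, A i j * cos (θ i - θ j) * (u i - u j) ^ 2 := by
  set g : ℝ → ℝ := fun t => EE A (θ + t • u) with hg
  have hc : Continuous (fun t : ℝ => θ + t • u) := by fun_prop
  have h0 : IsLocalMin g 0 := by
    have h1 : Tendsto (fun t : ℝ => θ + t • u) (𝓝 0) (𝓝 θ) := by
      have := hc.tendsto 0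
      simpa using this
    have h2 := h1.eventually hθ
    refine h2.mono fun t ht => ?_
    simp only [hg, zero_smul, add_zero]
    exact ht
  have hgt : ∀ t, g t = (1 / 2 : ℝ) * ∑ i, ∑ j, A i j * (1 - cos (θ i - θ j + t * (u i - u j))) := by
    intro t
    simp only [hg, EE, Pi.add_apply, Pi.smul_apply, smul_eq_mul]
    congr 1
    refine Finset.sum_congr rfl fun i _ => Finset.sum_congr rfl fun j _ => ?_
    congr 3
    ring
  constructor
  · have hd : HasDerivAt g ((1 / 2 : ℝ) * ∑ i, ∑ j, A i j * (sin (θ i - θ j + 0 * (u i - u j)) * (u i - u j))) 0 := by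
      have : g = fun t => (1 / 2 : ℝ) * ∑ i, ∑ j, A i j * (1 - cos (θ i - θ j + t * (u i - u j))) := funext hgt
      rw [this]
      apply HasDerivAt.const_mul
      apply HasDerivAt.fun_sum
      intro i _
      apply HasDerivAt.fun_sum
      intro j _
      apply HasDerivAt.const_mul
      have h1 : HasDerivAt (fun t : ℝ => θ i - θ j + t * (u i - u j)) (1 * (u i - u j)) 0 :=
        ((hasDerivAt_id (0:ℝ)).mul_const (u i - u j)).const_add _
      have h2 := (h1.cos).const_sub 1
      refine h2.congr_deriv ?_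
      ring
    have h1 := h0.hasDerivAt_eq_zero hd
    have h2 : ∑ i, ∑ j, A i j * (sin (θ i - θ j + 0 * (u i - u j)) * (u i - u j)) = 0 := by linarith
    rw [← h2]
    refine Finset.sum_congr rfl fun i _ => Finset.sum_congr rfl fun j _ => ?_
    rw [zero_mul, add_zero]
    ring
  · have h1 : ∀ᶠ t in 𝓝[≠] (0:ℝ), 0 ≤ ∑ i, ∑ j, A i j * cos (θ i - θ j) * ((1 - cos (t * (u i - u j))) / t ^ 2) := by
      have a1 : ∀ᶠ t in 𝓝 (0:ℝ), g 0 ≤ g t := h0
      have a2 : ∀ᶠ t in 𝓝 (0:ℝ), g 0 ≤ g (-t) := by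
        have : Tendsto (fun t : ℝ => -t) (𝓝 0) (𝓝 0) := by
          have := (continuous_neg (G := ℝ)).tendsto 0
          simpa using this
        exact this.eventually h0
      have a3 := (a1.and a2).filter_mono (nhdsWithin_le_nhds (s := {0}ᶜ))
      filter_upwards [a3, self_mem_nhdsWithin] with t ht ht0
      obtain ⟨b1, b2⟩ := ht
      have e : g t + g (-t) - 2 * g 0 = ∑ i, ∑ j, A i j * cos (θ i - θ j) * (1 - cos (t * (u i - u j))) := by
        rw [hgt, hgt, hgt]
        have : ∀ a b c : ℝ, 1 / 2 * a + 1 / 2 * b - 2 * (1 / 2 * c) = 1 / 2 * (a + b - 2 * c) := fun a b c => by ring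
        rw [this, ← Finset.sum_add_distrib, Finset.mul_sum, ← Finset.sum_sub_distrib, Finset.mul_sum]
        refine Finset.sum_congr rfl fun i _ => ?_
        rw [← Finset.sum_add_distrib, Finset.mul_sum, ← Finset.sum_sub_distrib, Finset.mul_sum]
        refine Finset.sum_congr rfl fun j _ => ?_
        rw [neg_mul, ← sub_eq_add_neg, cos_add (θ i - θ j), cos_sub (θ i - θ j) (t * (u i - u j)), zero_mul, add_zero]
        ring
      have h2 : 0 ≤ ∑ i, ∑ j, A i j * cos (θ i - θ j) * (1 - cos (t * (u i - u j))) := by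
        rw [← e]; linarith
      have h3 : ∑ i, ∑ j, A i j * cos (θ i - θ j) * ((1 - cos (t * (u i - u j))) / t ^ 2) =
          (∑ i, ∑ j, A i j * cos (θ i - θ j) * (1 - cos (t * (u i - u j)))) / t ^ 2 := by
        rw [Finset.sum_div]
        refine Finset.sum_congr rfl fun i _ => ?_
        rw [Finset.sum_div]
        refine Finset.sum_congr rfl fun j _ => ?_
        ring
      rw [h3]
      positivity
    have h2 : Tendsto (fun t : ℝ => ∑ i, ∑ j, A i j * cos (θ i - θ j) * ((1 - cos (t * (u i - u j))) / t ^ 2)) (𝓝[≠] 0)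
        (𝓝 (∑ i, ∑ j, A i j * cos (θ i - θ j) * ((u i - u j) ^ 2 / 2))) :=
      tendsto_finsetSum _ fun i _ => tendsto_finsetSum _ fun j _ => (tendsto_one_sub_cos _).const_mul _
    have h3 := ge_of_tendsto h2 h1
    have h4 : ∑ i, ∑ j, A i j * cos (θ i - θ j) * (u i - u j) ^ 2 =
        2 * ∑ i, ∑ j, A i j * cos (θ i - θ j) * ((u i - u j) ^ 2 / 2) := by
      rw [Finset.mul_sum]
      refine Finset.sum_congr rfl fun i _ => ?_
      rw [Finset.mul_sum]
      refine Finset.sum_congr rfl fun j _ => by ring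
    rw [h4]
    linarith

lemma FO_of (hsym : ∀ i j, A i j = A j i) {θ : Fin n → ℝ} (hθ : IsLocalMin (EE A) θ) (k : Fin n) :
    ∑ j, A k j * sin (θ k - θ j) = 0 := by
  have h := (loc_min A hθ (fun i => if i = k then 1 else 0)).1
  have e : ∀ i j : Fin n, A i j * sin (θ i - θ j) * ((if i = k then (1:ℝ) else 0) - (if j = k then 1 else 0))
      = (if i = k then A i j * sin (θ i - θ j) else 0) - (if j = k then A i j * sin (θ i - θ j) else 0) := by
    intro i j
    by_cases hi : i = k <;> by_cases hj : j = k <;> simp [hi, hj]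
  simp only [e] at h
  rw [Finset.sum_congr rfl fun i _ => Finset.sum_sub_distrib _ _, Finset.sum_sub_distrib] at h
  have e1 : ∑ i, ∑ j, (if i = k then A i j * sin (θ i - θ j) else 0) = ∑ j, A k j * sin (θ k - θ j) := by
    rw [Finset.sum_comm]
    simp
  have e2 : ∑ i, ∑ j, (if j = k then A i j * sin (θ i - θ j) else 0) = -∑ j, A k j * sin (θ k - θ j) := by
    simp only [Finset.sum_ite_eq', Finset.mem_univ, if_true]
    rw [← Finset.sum_neg_distrib]
    refine Finset.sum_congr rfl fun i _ => ?_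
    rw [hsym i k, ← neg_sub (θ k) (θ i), sin_neg]
    ring
  rw [e1, e2] at h
  linarith

end Pool.Agent.Q175.GS
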