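import Pool.Agent.Q175.GS.Prob

/-! The net argument. -/

set_option autoImplicit false

open Finset Real Filter Topology

namespace Pool.Agent.Q175.GS

section
variable {n : ℕ}

/-- the bilinear form -/
noncomputable def BF (D : Fin n → Fin n → ℝ) (u v : Fin n → ℝ) : ℝ := ∑ i, ∑ j, u i * D i j * v j

lemma BF_split (D : Fin n → Fin n → ℝ) (u v y z : Fin n → ℝ) :
    BF D u v = BF D y z + BF D (fun i => u i - y i) z + BF D u (fun i => v i - z i) := by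
  unfold BF
  rw [← Finset.sum_add_distrib, ← Finset.sum_add_distrib]
  refine Finset.sum_congr rfl fun i _ => ?_
  rw [← Finset.sum_add_distrib, ← Finset.sum_add_distrib]
  refine Finset.sum_congr rfl fun j _ => ?_
  ring

lemma BF_smul (D : Fin n → Fin n → ℝ) (u v : Fin n → ℝ) (a b : ℝ) :
    BF D (fun i => a * u i) (fun i => b * v i) = a * b * BF D u v := by
  unfold BF
  rw [Finset.mul_sum]
  refine Finset.sum_congr rfl fun i _ => ?_
  rw [Finset.mul_sum]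
  refine Finset.sum_congr rfl fun j _ => ?_
  ring

/-- the bound property -/
def Bd (D : Fin n → Fin n → ℝ) (M : ℝ) : Prop :=
  ∀ u v : Fin n → ℝ, ∑ i, u i ^ 2 ≤ n → ∑ i, v i ^ 2 ≤ n → BF D u v ≤ M

lemma Bd_scale {D : Fin n → Fin n → ℝ} {M : ℝ} (h : Bd D M) {a b : ℝ} (ha : 0 < a) (hb : 0 < b) (u v : Fin n → ℝ)
    (hu : ∑ i, u i ^ 2 ≤ a ^ 2 * n) (hv : ∑ i, v i ^ 2 ≤ b ^ 2 * n) : BF D u v ≤ a * b * M := by
  have h1 := h (fun i => a⁻¹ * u i) (fun i => b⁻¹ * v i) (by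
    simp only [mul_pow, ← Finset.mul_sum]
    rw [inv_pow, inv_mul_le_iff₀ (by positivity)]
    exact hu) (by
    simp only [mul_pow, ← Finset.mul_sum]
    rw [inv_pow, inv_mul_le_iff₀ (by positivity)]
    exact hv)
  rw [BF_smul] at h1
  have h2 : a * b * (a⁻¹ * b⁻¹ * BF D u v) ≤ a * b * M := mul_le_mul_of_nonneg_left h1 (by positivity)
  have h3 : a * b * (a⁻¹ * b⁻¹ * BF D u v) = BF D u v := by field_simp
  linarith

/-- from the bound property to the operator bound -/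
lemma Bd_op {D : Fin n → Fin n → ℝ} {M : ℝ} (hn : 0 < n) (h : Bd D M) (u v : Fin n → ℝ) :
    ∑ i, ∑ j, u i * D i j * v j ≤ (M / n) * √(∑ i, u i ^ 2) * √(∑ j, v j ^ 2) := by
  have hn0 : (0:ℝ) < n := by exact_mod_cast hn
  have hu0 : 0 ≤ ∑ i, u i ^ 2 := Finset.sum_nonneg fun i _ => sq_nonneg _
  have hv0 : 0 ≤ ∑ i, v i ^ 2 := Finset.sum_nonneg fun i _ => sq_nonneg _
  rcases hu0.eq_or_lt with hu | hu
  · have : ∀ i, u i = 0 := by
      intro i
      have := (Finset.sum_eq_zero_iff_of_nonneg fun i _ => sq_nonneg (u i)).1 hu.symm i (Finset.mem_univ i)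
      exact pow_eq_zero_iff two_ne_zero |>.1 this
    simp [this]
  · rcases hv0.eq_or_lt with hv | hv
    · have : ∀ i, v i = 0 := by
        intro i
        have := (Finset.sum_eq_zero_iff_of_nonneg fun i _ => sq_nonneg (v i)).1 hv.symm i (Finset.mem_univ i)
        exact pow_eq_zero_iff two_ne_zero |>.1 this
      simp [this]
    · have h1 := Bd_scale h (a := √(∑ i, u i ^ 2) / √n) (b := √(∑ i, v i ^ 2) / √n) (by positivity) (by positivity) u v
        (by rw [div_pow, sq_sqrt hu0, sq_sqrt hn0.le, div_mul_cancel₀ _ hn0.ne'])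
        (by rw [div_pow, sq_sqrt hv0, sq_sqrt hn0.le, div_mul_cancel₀ _ hn0.ne'])
      refine h1.trans (le_of_eq ?_)
      have h2 : √(n:ℝ) * √(n:ℝ) = n := mul_self_sqrt hn0.le
      have h3 : 0 < √(n:ℝ) := sqrt_pos.2 hn0
      calc √(∑ i, u i ^ 2) / √n * (√(∑ i, v i ^ 2) / √n) * M
          = (√(∑ i, u i ^ 2) * √(∑ i, v i ^ 2) * M) / (√(n:ℝ) * √(n:ℝ)) := by field_simp
        _ = _ := by rw [h2]; ring

/-- the net -/
noncomputable def NN (n : ℕ) : Finset (Fin n → ℤ) :=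
  (Fintype.piFinset fun _ : Fin n => Finset.Icc (-(25 * n : ℤ)) (25 * n)).filter fun k => 4 * ∑ i, (k i) ^ 2 ≤ 25 * (n : ℤ)

lemma mem_NN (k : Fin n → ℤ) (h : 4 * ∑ i, (k i) ^ 2 ≤ 25 * (n : ℤ)) : k ∈ NN n := by
  unfold NN
  rw [Finset.mem_filter, Fintype.mem_piFinset]
  refine ⟨fun i => ?_, h⟩
  rw [Finset.mem_Icc]
  have h1 : (k i) ^ 2 ≤ ∑ i, (k i) ^ 2 := Finset.single_le_sum (f := fun i => (k i) ^ 2) (fun i _ => sq_nonneg _) (Finset.mem_univ i)
  have hn : (0:ℤ) ≤ n := by positivity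
  constructor
  · nlinarith [sq_nonneg (k i + 1), sq_nonneg (k i - 1)]
  · nlinarith [sq_nonneg (k i + 1), sq_nonneg (k i - 1)]

/-- rounding -/
lemma round_NN (u : Fin n → ℝ) (hu : ∑ i, u i ^ 2 ≤ n) :
    ∃ k ∈ NN n, ∑ i, (u i - (k i : ℝ) / 2) ^ 2 ≤ (1 / 4) ^ 2 * (n : ℝ) ∧ ∑ i, ((k i : ℝ) / 2) ^ 2 ≤ (5 / 4) ^ 2 * (n : ℝ) := by
  have h1 : ∀ i, (u i - ((round (2 * u i) : ℤ) : ℝ) / 2) ^ 2 ≤ (1 / 4) ^ 2 := by
    intro i
    have := abs_sub_round (2 * u i)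
    have h2 := abs_le.1 this
    have h3 : |u i - ((round (2 * u i) : ℤ) : ℝ) / 2| ≤ 1 / 4 := by
      rw [abs_le]
      constructor
      · linarith [h2.1]
      · linarith [h2.2]
    calc (u i - ((round (2 * u i) : ℤ) : ℝ) / 2) ^ 2 = |u i - ((round (2 * u i) : ℤ) : ℝ) / 2| ^ 2 := (sq_abs _).symm
      _ ≤ (1 / 4) ^ 2 := by gcongr
  have h2 : ∑ i, (u i - ((round (2 * u i) : ℤ) : ℝ) / 2) ^ 2 ≤ (1 / 4) ^ 2 * (n : ℝ) := by
    calc ∑ i, (u i - ((round (2 * u i) : ℤ) : ℝ) / 2) ^ 2 ≤ ∑ _i : Fin n, ((1:ℝ) / 4) ^ 2 := Finset.sum_le_sum fun i _ => h1 i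
      _ = (1 / 4) ^ 2 * n := by simp; ring
  have h3 : ∑ i, (((round (2 * u i) : ℤ) : ℝ) / 2) ^ 2 ≤ (5 / 4) ^ 2 * (n : ℝ) := by
    have h4 : ∀ i, (((round (2 * u i) : ℤ) : ℝ) / 2) ^ 2 ≤ 5 / 4 * u i ^ 2 + 5 * (u i - ((round (2 * u i) : ℤ) : ℝ) / 2) ^ 2 := by
      intro i
      nlinarith [sq_nonneg (u i / 2 + 2 * (u i - ((round (2 * u i) : ℤ) : ℝ) / 2))]
    calc ∑ i, (((round (2 * u i) : ℤ) : ℝ) / 2) ^ 2
        ≤ ∑ i, (5 / 4 * u i ^ 2 + 5 * (u i - ((round (2 * u i) : ℤ) : ℝ) / 2) ^ 2) := Finset.sum_le_sum fun i _ => h4 i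
      _ = 5 / 4 * ∑ i, u i ^ 2 + 5 * ∑ i, (u i - ((round (2 * u i) : ℤ) : ℝ) / 2) ^ 2 := by
          rw [Finset.sum_add_distrib, ← Finset.mul_sum, ← Finset.mul_sum]
      _ ≤ 5 / 4 * n + 5 * ((1 / 4) ^ 2 * n) := by gcongr
      _ = (5 / 4) ^ 2 * n := by ring
  refine ⟨fun i => round (2 * u i), mem_NN _ ?_, h2, h3⟩
  have h5 : (4:ℝ) * ∑ i, ((round (2 * u i) : ℤ) : ℝ) ^ 2 ≤ 25 * n := by
    have h6 : ∑ i, (((round (2 * u i) : ℤ) : ℝ) / 2) ^ 2 = (1 / 4) * ∑ i, ((round (2 * u i) : ℤ) : ℝ) ^ 2 := by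
      rw [Finset.mul_sum]
      exact Finset.sum_congr rfl fun i _ => by ring
    rw [h6] at h3
    linarith
  exact_mod_cast h5

lemma sum_exp_le (B : ℕ) : ∑ j ∈ Finset.Icc (-(B : ℤ)) B, exp (-((j : ℝ) ^ 2)) ≤ 4 := by
  have h1 : Finset.Icc (-(B : ℤ)) B ⊆ (Finset.range (B + 1)).image (fun m : ℕ => (m : ℤ)) ∪
      (Finset.range (B + 1)).image (fun m : ℕ => -(m : ℤ)) := by
    intro j hj
    rw [Finset.mem_Icc] at hj
    rw [Finset.mem_union, Finset.mem_image, Finset.mem_image]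
    rcases le_total 0 j with h | h
    · left
      refine ⟨j.toNat, ?_, ?_⟩
      · rw [Finset.mem_range]; omega
      · omega
    · right
      refine ⟨(-j).toNat, ?_, ?_⟩
      · rw [Finset.mem_range]; omega
      · omega
  have hg : ∀ m : ℕ, exp (-((m : ℝ) ^ 2)) ≤ (1 / 2) ^ m := by
    intro m
    have h2 : -((m:ℝ) ^ 2) ≤ (m : ℝ) * (-1) := by
      rcases Nat.eq_zero_or_pos m with h | h
      · subst h; simp
      · have : (1:ℝ) ≤ m := by exact_mod_cast h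
        nlinarith
    calc exp (-((m : ℝ) ^ 2)) ≤ exp ((m : ℝ) * (-1)) := exp_le_exp.2 h2
      _ = exp (-1) ^ m := Real.exp_nat_mul _ _
      _ ≤ (1 / 2) ^ m := by
          have h3 : exp (-1) ≤ 1 / 2 := by
            rw [Real.exp_neg]
            have := Real.exp_one_gt_d9
            rw [inv_le_comm₀ (exp_pos 1) (by norm_num)]
            linarith
          exact pow_le_pow_left₀ (exp_pos _).le h3 m
  have hs : ∑ m ∈ Finset.range (B + 1), exp (-((m : ℝ) ^ 2)) ≤ 2 := by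
    calc ∑ m ∈ Finset.range (B + 1), exp (-((m : ℝ) ^ 2)) ≤ ∑ m ∈ Finset.range (B + 1), (1 / 2 : ℝ) ^ m :=
          Finset.sum_le_sum fun m _ => hg m
      _ ≤ ∑' m : ℕ, (1 / 2 : ℝ) ^ m := Summable.sum_le_tsum _ (fun m _ => by positivity) summable_geometric_two
      _ = 2 := tsum_geometric_two
  have hu := Finset.sum_union_inter (s₁ := (Finset.range (B + 1)).image (fun m : ℕ => (m : ℤ)))
    (s₂ := (Finset.range (B + 1)).image (fun m : ℕ => -(m : ℤ))) (f := fun j : ℤ => exp (-((j : ℝ) ^ 2)))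
  have h4 : ∑ j ∈ (Finset.range (B + 1)).image (fun m : ℕ => (m : ℤ)), exp (-((j : ℝ) ^ 2)) ≤ 2 := by
    rw [Finset.sum_image (fun a _ b _ h => by simpa using h)]
    simpa using hs
  have h5 : ∑ j ∈ (Finset.range (B + 1)).image (fun m : ℕ => -(m : ℤ)), exp (-((j : ℝ) ^ 2)) ≤ 2 := by
    rw [Finset.sum_image (fun a _ b _ h => by simpa using h)]
    simpa using hs
  have h6 : 0 ≤ ∑ j ∈ (Finset.range (B + 1)).image (fun m : ℕ => (m : ℤ)) ∩ (Finset.range (B + 1)).image (fun m : ℕ => -(m : ℤ)),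
      exp (-((j : ℝ) ^ 2)) := Finset.sum_nonneg fun _ _ => (exp_pos _).le
  calc ∑ j ∈ Finset.Icc (-(B : ℤ)) B, exp (-((j : ℝ) ^ 2))
      ≤ ∑ j ∈ (Finset.range (B + 1)).image (fun m : ℕ => (m : ℤ)) ∪ (Finset.range (B + 1)).image (fun m : ℕ => -(m : ℤ)),
          exp (-((j : ℝ) ^ 2)) := Finset.sum_le_sum_of_subset_of_nonneg h1 fun _ _ _ => (exp_pos _).le
    _ ≤ 4 := by linarith

/-- the size of the net -/
lemma card_NN : ((NN n).card : ℝ) ≤ exp (25 / 4 * n) * 4 ^ n := by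
  have h1 : ((NN n).card : ℝ) ≤ ∑ k ∈ NN n, exp (25 / 4 * n) * ∏ i, exp (-((k i : ℝ) ^ 2)) := by
    rw [Finset.card_eq_sum_ones]
    push_cast
    refine Finset.sum_le_sum fun k hk => ?_
    unfold NN at hk
    rw [Finset.mem_filter] at hk
    have h2 : (4:ℝ) * ∑ i, (k i : ℝ) ^ 2 ≤ 25 * n := by exact_mod_cast hk.2
    rw [← Real.exp_sum, ← Real.exp_add]
    apply Real.one_le_exp
    rw [Finset.sum_neg_distrib]
    linarith
  refine h1.trans ?_
  rw [← Finset.mul_sum]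
  refine mul_le_mul_of_nonneg_left ?_ (exp_pos _).le
  calc ∑ k ∈ NN n, ∏ i, exp (-((k i : ℝ) ^ 2))
      ≤ ∑ k ∈ Fintype.piFinset fun _ : Fin n => Finset.Icc (-(25 * n : ℤ)) (25 * n), ∏ i, exp (-((k i : ℝ) ^ 2)) :=
        Finset.sum_le_sum_of_subset_of_nonneg (Finset.filter_subset _ _) fun _ _ _ => Finset.prod_nonneg fun _ _ => (exp_pos _).le
    _ = ∏ _i : Fin n, ∑ j ∈ Finset.Icc (-(25 * n : ℤ)) (25 * n), exp (-((j : ℝ) ^ 2)) :=
        (Finset.prod_univ_sum (fun _ : Fin n => Finset.Icc (-(25 * n : ℤ)) (25 * n)) (fun _ j => exp (-((j : ℝ) ^ 2)))).symm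
    _ = (∑ j ∈ Finset.Icc (-(25 * n : ℤ)) (25 * n), exp (-((j : ℝ) ^ 2))) ^ n := by simp
    _ ≤ 4 ^ n := by
        have := sum_exp_le (25 * n)
        push_cast at this
        exact pow_le_pow_left₀ (Finset.sum_nonneg fun _ _ => (exp_pos _).le) this n

/-- the crude bound -/
lemma crude {D : Fin n → Fin n → ℝ} (hD : ∀ i j, |D i j| ≤ 2) : Bd D (2 * n ^ 2) := by
  intro u v hu hv
  have h1 : ∀ i j, u i * D i j * v j ≤ u i ^ 2 + v j ^ 2 := by
    intro i j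
    have h2 := abs_le.1 (hD i j)
    have h3 : u i * D i j * v j ≤ |u i * v j| * 2 := by
      calc u i * D i j * v j ≤ |u i * D i j * v j| := le_abs_self _
        _ = |u i * v j| * |D i j| := by rw [abs_mul, abs_mul, abs_mul]; ring
        _ ≤ |u i * v j| * 2 := by gcongr; exact hD i j
    have h4 : |u i * v j| * 2 ≤ u i ^ 2 + v j ^ 2 := by
      rw [abs_mul]
      nlinarith [sq_nonneg (|u i| - |v j|), sq_abs (u i), sq_abs (v j)]
    linarith
  calc BF D u v ≤ ∑ i, ∑ j, (u i ^ 2 + v j ^ 2) := Finset.sum_le_sum fun i _ => Finset.sum_le_sum fun j _ => h1 i j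
    _ = n * (∑ i, u i ^ 2) + n * ∑ j, v j ^ 2 := by
        simp [Finset.sum_add_distrib, Finset.mul_sum]
    _ ≤ n * n + n * n := by gcongr
    _ = 2 * n ^ 2 := by ring

/-- one step of the improvement -/
lemma step {D : Fin n → Fin n → ℝ} {M T : ℝ} (h : Bd D M)
    (hN : ∀ k ∈ NN n, ∀ l ∈ NN n, BF D (fun i => (k i : ℝ) / 2) (fun i => (l i : ℝ) / 2) ≤ T) : Bd D (T + 9 / 16 * M) := by
  intro u v hu hv
  obtain ⟨k, hk, hk1, hk2⟩ := round_NN u hu
  obtain ⟨l, hl, hl1, hl2⟩ := round_NN v hv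
  rw [BF_split D u v (fun i => (k i : ℝ) / 2) (fun i => (l i : ℝ) / 2)]
  have h1 := hN k hk l hl
  have h2 := Bd_scale h (a := 1 / 4) (b := 5 / 4) (by norm_num) (by norm_num) (fun i => u i - (k i : ℝ) / 2) (fun i => (l i : ℝ) / 2) hk1 hl2
  have h3 := Bd_scale h (a := 1) (b := 1 / 4) (by norm_num) (by norm_num) u (fun i => v i - (l i : ℝ) / 2) (by simpa using hu) hl1
  linarith

lemma final_bd {D : Fin n → Fin n → ℝ} {T : ℝ} (hD : ∀ i j, |D i j| ≤ 2)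
    (hN : ∀ k ∈ NN n, ∀ l ∈ NN n, BF D (fun i => (k i : ℝ) / 2) (fun i => (l i : ℝ) / 2) ≤ T) : Bd D (16 / 7 * T) := by
  have h1 : ∀ m : ℕ, Bd D (16 / 7 * T + (9 / 16) ^ m * (2 * n ^ 2 - 16 / 7 * T)) := by
    intro m
    induction m with
    | zero =>
      have := crude hD
      intro u v hu hv
      have := this u v hu hv
      rw [pow_zero, one_mul]
      linarith
    | succ m ih =>
      have := step ih hN
      intro u v hu hv
      have := this u v hu hv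
      refine this.trans (le_of_eq ?_)
      rw [pow_succ]
      ring
  intro u v hu hv
  have h2 : Tendsto (fun m : ℕ => 16 / 7 * T + (9 / 16 : ℝ) ^ m * (2 * n ^ 2 - 16 / 7 * T)) atTop (𝓝 (16 / 7 * T + 0 * (2 * n ^ 2 - 16 / 7 * T))) :=
    ((tendsto_pow_atTop_nhds_zero_of_lt_one (by norm_num) (by norm_num)).mul_const _).const_add _
  rw [zero_mul, add_zero] at h2
  exact ge_of_tendsto' h2 fun m => h1 m u v hu hv

/-- union bound -/
lemma union_bound {α β : Type*} [Fintype α] (N : Finset β) (w : α → ℝ) (hw : ∀ s, 0 ≤ w s) (P : β → α → Prop) [∀ s, Decidable (∃ a ∈ N, P a s)]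
    [∀ a s, Decidable (P a s)] {E : ℝ} (hE : ∀ a ∈ N, ∑ s, (if P a s then w s else 0) ≤ E) :
    ∑ s, (if ∃ a ∈ N, P a s then w s else 0) ≤ N.card * E := by
  have h1 : ∀ s, (if ∃ a ∈ N, P a s then w s else 0) ≤ ∑ a ∈ N, (if P a s then w s else 0) := by
    intro s
    split_ifs with h
    · obtain ⟨a, ha, hPa⟩ := h
      calc w s = (if P a s then w s else 0) := by rw [if_pos hPa]
        _ ≤ _ := Finset.single_le_sum (f := fun a => if P a s then w s else 0) (fun a _ => by split_ifs <;> simp [hw]) ha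
    · exact Finset.sum_nonneg fun a _ => by split_ifs <;> simp [hw]
  refine (Finset.sum_le_sum fun s _ => h1 s).trans ?_
  rw [Finset.sum_comm]
  refine (Finset.sum_le_sum hE).trans (le_of_eq ?_)
  simp

/-- the bad event for the net has small probability -/
lemma bad2 {d : ℝ} (h0 : 0 ≤ d) (h1 : d ≤ 1 / 2) (hn : 0 < n) [∀ s : Fin n → Fin n → Bool, Decidable (∃ p ∈ NN n ×ˢ NN n,
      13 * (n * √n) ≤ BF (DD (AA s) (2 * d)) (fun i => (p.1 i : ℝ) / 2) (fun i => (p.2 i : ℝ) / 2))] :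
    ∑ s : Fin n → Fin n → Bool, (if ∃ p ∈ NN n ×ˢ NN n,
      13 * (n * √n) ≤ BF (DD (AA s) (2 * d)) (fun i => (p.1 i : ℝ) / 2) (fun i => (p.2 i : ℝ) / 2) then wt d s else 0) ≤ (1 / 2) ^ n := by
  classical
  have hn0 : (0:ℝ) < n := by exact_mod_cast hn
  have hs : (√(n:ℝ)) ^ 2 = n := sq_sqrt hn0.le
  have h2 := union_bound (NN n ×ˢ NN n) (wt d) (wt_nonneg h0 h1) (fun (p : (Fin n → ℤ) × (Fin n → ℤ)) (s : Fin n → Fin n → Bool) =>
    13 * (n * √n) ≤ BF (DD (AA s) (2 * d)) (fun i => (p.1 i : ℝ) / 2) (fun i => (p.2 i : ℝ) / 2)) (E := exp (-(16.9 * n))) (by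
      intro p hp
      rw [Finset.mem_product] at hp
      have hk : ∀ k ∈ NN n, ∑ i, ((k i : ℝ) / 2) ^ 2 ≤ 25 / 16 * (n : ℝ) := by
        intro k hk
        unfold NN at hk
        rw [Finset.mem_filter] at hk
        have h2 : (4:ℝ) * ∑ i, (k i : ℝ) ^ 2 ≤ 25 * n := by exact_mod_cast hk.2
        have h6 : ∑ i, ((k i : ℝ) / 2) ^ 2 = (1 / 4) * ∑ i, (k i : ℝ) ^ 2 := by
          rw [Finset.mul_sum]
          exact Finset.sum_congr rfl fun i _ => by ring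
        rw [h6]; linarith
      have e1 := hk p.1 hp.1
      have e2 := hk p.2 hp.2
      have h3 := bil_prob h0 h1 (fun i => (p.1 i : ℝ) / 2) (fun i => (p.2 i : ℝ) / 2) (V := 5 * n ^ 2) (t := 13 * (n * √n)) (by positivity)
        (by positivity) (by
          have e3 : (∑ i, ((p.1 i : ℝ) / 2) ^ 2) * ∑ i, ((p.2 i : ℝ) / 2) ^ 2 ≤ (25 / 16 * (n : ℝ)) * (25 / 16 * (n : ℝ)) := by
            apply mul_le_mul e1 e2 (Finset.sum_nonneg fun _ _ => sq_nonneg _) (by positivity)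
          nlinarith [sq_nonneg (n:ℝ)])
      refine h3.trans (le_of_eq ?_)
      congr 1
      have : (13 * ((n:ℝ) * √n)) ^ 2 = 169 * n ^ 2 * (√n) ^ 2 := by ring
      rw [this, hs]
      field_simp
      norm_num)
  refine h2.trans ?_
  rw [Finset.card_product]
  push_cast
  have h3 := card_NN (n := n)
  have h4 : ((NN n).card : ℝ) * (NN n).card * exp (-(16.9 * n)) ≤
      (exp (25 / 4 * n) * 4 ^ n) * (exp (25 / 4 * n) * 4 ^ n) * exp (-(16.9 * n)) := by gcongr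
  refine h4.trans ?_
  have h5 : (exp (25 / 4 * n) * 4 ^ n) * (exp (25 / 4 * n) * 4 ^ n) * exp (-(16.9 * n)) = (16 * exp (-4.4)) ^ n := by
    rw [mul_pow, ← Real.exp_nat_mul]
    have : (exp (25 / 4 * n) * 4 ^ n) * (exp (25 / 4 * n) * 4 ^ n) * exp (-(16.9 * n)) =
        ((4:ℝ) ^ n * 4 ^ n) * (exp (25 / 4 * n) * exp (25 / 4 * n) * exp (-(16.9 * n))) := by ring
    rw [this, ← mul_pow, ← Real.exp_add, ← Real.exp_add]
    congr 1
    · norm_num
    · congr 1; ring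
  rw [h5]
  apply pow_le_pow_left₀ (by positivity)
  have h6 : (2.7:ℝ) ^ 4 ≤ exp 4.4 := by
    calc (2.7:ℝ) ^ 4 ≤ (exp 1) ^ 4 := by
          have := Real.exp_one_gt_d9
          gcongr; linarith
      _ = exp (4 * 1) := by rw [← Real.exp_nat_mul]; norm_num
      _ ≤ exp 4.4 := exp_le_exp.2 (by norm_num)
  rw [Real.exp_neg]
  rw [← div_eq_mul_inv, div_le_iff₀ (exp_pos _)]
  norm_num at h6 ⊢
  linarith

end

end Pool.Agent.Q175.GS
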