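import Pool.Agent.Q175.GS.Loc

/-! The random matrix. -/

set_option autoImplicit false

open Finset Real Filter Topology MeasureTheory ProbabilityTheory

namespace Pool.Agent.Q175.GS

/-- Hoeffding's lemma for a centred two-point variable -/
lemma two_point {q : ℝ} (hq0 : 0 ≤ q) (hq1 : q ≤ 1) (t : ℝ) :
    (1 / 2 + q / 2) * exp (t * (1 - q)) + (1 / 2 - q / 2) * exp (t * (-1 - q)) ≤ exp (t ^ 2 / 2) := by
  set μ : Measure ℝ := ENNReal.ofReal (1 / 2 + q / 2) • Measure.dirac (1 - q) +
    ENNReal.ofReal (1 / 2 - q / 2) • Measure.dirac (-1 - q) with hμ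
  have hp1 : 0 ≤ 1 / 2 + q / 2 := by linarith
  have hp2 : 0 ≤ 1 / 2 - q / 2 := by linarith
  have hint : ∀ f : ℝ → ℝ, Continuous f → ∫ x, f x ∂μ = (1 / 2 + q / 2) * f (1 - q) + (1 / 2 - q / 2) * f (-1 - q) := by
    intro f hf
    have i1 : Integrable f (ENNReal.ofReal (1 / 2 + q / 2) • Measure.dirac (1 - q)) :=
      (integrable_dirac (by simp)).smul_measure ENNReal.ofReal_ne_top
    have i2 : Integrable f (ENNReal.ofReal (1 / 2 - q / 2) • Measure.dirac (-1 - q)) :=
      (integrable_dirac (by simp)).smul_measure ENNReal.ofReal_ne_top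
    rw [hμ, integral_add_measure i1 i2, integral_smul_measure, integral_smul_measure, integral_dirac, integral_dirac,
      ENNReal.toReal_ofReal hp1, ENNReal.toReal_ofReal hp2]
    rfl
  have hprob : IsProbabilityMeasure μ := by
    constructor
    rw [hμ]
    simp only [Measure.coe_add, Measure.coe_smul, Pi.add_apply, Pi.smul_apply, measure_univ, smul_eq_mul, mul_one]
    rw [← ENNReal.ofReal_add hp1 hp2]
    norm_num
  have hmean : μ[(id : ℝ → ℝ)] = 0 := by
    have := hint id continuous_id
    rw [this]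
    simp only [id]
    ring
  have hb : ∀ᵐ ω ∂μ, (id ω : ℝ) ∈ Set.Icc (-1 - q) (1 - q) := by
    rw [hμ, ae_add_measure_iff]
    constructor
    · apply Measure.ae_smul_measure
      rw [ae_dirac_eq]
      simp only [id, Filter.eventually_pure, Set.mem_Icc]
      constructor <;> linarith
    · apply Measure.ae_smul_measure
      rw [ae_dirac_eq]
      simp only [id, Filter.eventually_pure, Set.mem_Icc]
      constructor <;> linarith
  have h := (hasSubgaussianMGF_of_mem_Icc_of_integral_eq_zero (μ := μ) (X := id) measurable_id.aemeasurable hb hmean).mgf_le t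
  rw [mgf, hint (fun x => exp (t * id x)) (by fun_prop)] at h
  simp only [id] at h
  refine h.trans (le_of_eq ?_)
  congr 1
  have : ‖(1 - q) - (-1 - q)‖₊ = 2 := by
    have : (1 - q) - (-1 - q) = 2 := by ring
    rw [this]
    ext; simp
  rw [this]
  norm_num

section
variable {n : ℕ}

/-- the weight of a configuration -/
noncomputable def wt (d : ℝ) (s : Fin n → Fin n → Bool) : ℝ :=
  ∏ i : Fin n, ∏ j : Fin n, (if i < j then (if s i j = true then (1 / 2 : ℝ) + d else (1 / 2 : ℝ) - d) else (1 / 2 : ℝ))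

/-- the matrix -/
noncomputable def AA (s : Fin n → Fin n → Bool) (i j : Fin n) : ℝ :=
  if i < j then (if s i j = true then (1:ℝ) else -1)
    else if j < i then (if s j i = true then (1:ℝ) else -1) else 0

/-- the centred entries above the diagonal -/
noncomputable def XX (q : ℝ) (s : Fin n → Fin n → Bool) (i j : Fin n) : ℝ :=
  if i < j then (if s i j = true then (1:ℝ) else -1) - q else 0

lemma prod_sum2 (F : Fin n → Fin n → Bool → ℝ) :
    ∑ s : Fin n → Fin n → Bool, ∏ i, ∏ j, F i j (s i j) = ∏ i, ∏ j, ∑ b, F i j b := by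
  rw [← Fintype.prod_sum (fun i (r : Fin n → Bool) => ∏ j, F i j (r j))]
  refine Finset.prod_congr rfl fun i _ => ?_
  rw [Fintype.prod_sum (fun j (b : Bool) => F i j b)]

lemma wt_nonneg {d : ℝ} (h0 : 0 ≤ d) (h1 : d ≤ 1 / 2) (s : Fin n → Fin n → Bool) : 0 ≤ wt d s := by
  unfold wt
  refine Finset.prod_nonneg fun i _ => Finset.prod_nonneg fun j _ => ?_
  split_ifs <;> linarith

lemma wt_sum (d : ℝ) : ∑ s : Fin n → Fin n → Bool, wt d s = 1 := by
  unfold wt
  rw [prod_sum2 (fun i j b => if i < j then (if b = true then (1 / 2 : ℝ) + d else (1 / 2 : ℝ) - d) else (1 / 2 : ℝ))]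
  have : ∀ i j : Fin n, ∑ b : Bool, (if i < j then (if b = true then (1 / 2 : ℝ) + d else (1 / 2 : ℝ) - d) else (1 / 2 : ℝ)) = 1 := by
    intro i j
    rw [Fintype.sum_bool]
    by_cases h : i < j
    · simp only [h, if_true]
      norm_num
    · simp only [h, if_false]
      norm_num
  simp only [this, Finset.prod_const_one]

/-- the exponential moment -/
lemma mgf_le' {d : ℝ} (h0 : 0 ≤ d) (h1 : d ≤ 1 / 2) (b : Fin n → Fin n → ℝ) :
    ∑ s : Fin n → Fin n → Bool, wt d s * exp (∑ i, ∑ j, b i j * XX (2 * d) s i j) ≤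
      exp ((∑ i, ∑ j, if i < j then b i j ^ 2 else 0) / 2) := by
  have e1 : ∀ s : Fin n → Fin n → Bool, wt d s * exp (∑ i, ∑ j, b i j * XX (2 * d) s i j) =
      ∏ i, ∏ j, ((if i < j then (if s i j = true then (1 / 2 : ℝ) + d else (1 / 2 : ℝ) - d) else (1 / 2 : ℝ)) *
        exp (b i j * (if i < j then (if s i j = true then (1:ℝ) else -1) - 2 * d else 0))) := by
    intro s
    rw [Real.exp_sum, wt, ← Finset.prod_mul_distrib]
    refine Finset.prod_congr rfl fun i _ => ?_
    rw [Real.exp_sum, ← Finset.prod_mul_distrib]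
    rfl
  simp only [e1]
  rw [prod_sum2 (fun i j c => (if i < j then (if c = true then (1 / 2 : ℝ) + d else (1 / 2 : ℝ) - d) else (1 / 2 : ℝ)) *
        exp (b i j * (if i < j then (if c = true then (1:ℝ) else -1) - 2 * d else 0)))]
  rw [Finset.sum_div, Real.exp_sum]
  refine Finset.prod_le_prod (fun i _ => Finset.prod_nonneg fun j _ => Finset.sum_nonneg fun c _ => ?_) fun i _ => ?_
  · have : (0:ℝ) ≤ (if i < j then (if c = true then (1 / 2 : ℝ) + d else (1 / 2 : ℝ) - d) else (1 / 2 : ℝ)) := by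
      split_ifs <;> linarith
    positivity
  · rw [Finset.sum_div, Real.exp_sum]
    refine Finset.prod_le_prod (fun j _ => Finset.sum_nonneg fun c _ => ?_) fun j _ => ?_
    · have : (0:ℝ) ≤ (if i < j then (if c = true then (1 / 2 : ℝ) + d else (1 / 2 : ℝ) - d) else (1 / 2 : ℝ)) := by
        split_ifs <;> linarith
      positivity
    · rw [Fintype.sum_bool]
      by_cases h : i < j
      · simp only [h, if_true]
        have := two_point (q := 2 * d) (by linarith) (by linarith) (b i j)
        have e : (2 * d) / 2 = d := by ring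
        rw [e] at this
        simpa using this
      · simp only [h, if_false, mul_zero, exp_zero, mul_one, zero_div]
        norm_num

/-- Chernoff's bound -/
lemma chernoff {d : ℝ} (h0 : 0 ≤ d) (h1 : d ≤ 1 / 2) (b : Fin n → Fin n → ℝ) {V t : ℝ} (hV : 0 < V) (ht : 0 ≤ t)
    (hb : (∑ i, ∑ j, if i < j then b i j ^ 2 else 0) ≤ V) :
    ∑ s : Fin n → Fin n → Bool, (if t ≤ ∑ i, ∑ j, b i j * XX (2 * d) s i j then wt d s else 0) ≤
      exp (-(t ^ 2 / (2 * V))) := by
  set l := t / V with hl
  have hl0 : 0 ≤ l := by positivity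
  have h2 : ∀ s : Fin n → Fin n → Bool, (if t ≤ ∑ i, ∑ j, b i j * XX (2 * d) s i j then wt d s else 0) ≤
      exp (-(l * t)) * (wt d s * exp (∑ i, ∑ j, (l * b i j) * XX (2 * d) s i j)) := by
    intro s
    have hw := wt_nonneg h0 h1 s
    have e : ∑ i, ∑ j, (l * b i j) * XX (2 * d) s i j = l * ∑ i, ∑ j, b i j * XX (2 * d) s i j := by
      rw [Finset.mul_sum]
      refine Finset.sum_congr rfl fun i _ => ?_
      rw [Finset.mul_sum]
      exact Finset.sum_congr rfl fun j _ => by ring
    split_ifs with h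
    · rw [e]
      have h3 : l * t ≤ l * ∑ i, ∑ j, b i j * XX (2 * d) s i j := mul_le_mul_of_nonneg_left h hl0
      have h4 : 1 ≤ exp (-(l * t)) * exp (l * ∑ i, ∑ j, b i j * XX (2 * d) s i j) := by
        rw [← Real.exp_add]
        exact Real.one_le_exp (by linarith)
      calc wt d s = wt d s * 1 := (mul_one _).symm
        _ ≤ wt d s * (exp (-(l * t)) * exp (l * ∑ i, ∑ j, b i j * XX (2 * d) s i j)) := by gcongr
        _ = _ := by ring
    · positivity
  refine (Finset.sum_le_sum fun s _ => h2 s).trans ?_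
  rw [← Finset.mul_sum]
  have h3 := mgf_le' h0 h1 (fun i j => l * b i j)
  have e2 : (∑ i, ∑ j, if i < j then (l * b i j) ^ 2 else 0) = l ^ 2 * ∑ i, ∑ j, if i < j then b i j ^ 2 else 0 := by
    rw [Finset.mul_sum]
    refine Finset.sum_congr rfl fun i _ => ?_
    rw [Finset.mul_sum]
    refine Finset.sum_congr rfl fun j _ => ?_
    split_ifs <;> ring
  rw [e2] at h3
  calc exp (-(l * t)) * ∑ s : Fin n → Fin n → Bool, (wt d s * exp (∑ i, ∑ j, (l * b i j) * XX (2 * d) s i j))
      ≤ exp (-(l * t)) * exp ((l ^ 2 * ∑ i, ∑ j, if i < j then b i j ^ 2 else 0) / 2) := by gcongr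
    _ ≤ exp (-(l * t)) * exp (l ^ 2 * V / 2) := by gcongr
    _ = exp (-(t ^ 2 / (2 * V))) := by
        rw [← Real.exp_add, hl]
        congr 1
        field_simp
        ring

lemma DD_eq (q : ℝ) (s : Fin n → Fin n → Bool) (i j : Fin n) : DD (AA s) q i j = XX q s i j + XX q s j i := by
  unfold DD AA XX
  rcases lt_trichotomy i j with h | h | h
  · simp [h, h.ne, h.not_gt]
  · subst h; simp
  · simp [h, h.ne', h.not_gt]

lemma bil (q : ℝ) (s : Fin n → Fin n → Bool) (u v : Fin n → ℝ) :
    ∑ i, ∑ j, u i * DD (AA s) q i j * v j = ∑ i, ∑ j, (u i * v j + u j * v i) * XX q s i j := by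
  have h1 : ∑ i, ∑ j, u i * DD (AA s) q i j * v j = (∑ i, ∑ j, u i * v j * XX q s i j) + ∑ i, ∑ j, u i * v j * XX q s j i := by
    rw [← Finset.sum_add_distrib]
    refine Finset.sum_congr rfl fun i _ => ?_
    rw [← Finset.sum_add_distrib]
    refine Finset.sum_congr rfl fun j _ => ?_
    rw [DD_eq]; ring
  rw [h1, Finset.sum_comm (f := fun i j => u i * v j * XX q s j i), ← Finset.sum_add_distrib]
  refine Finset.sum_congr rfl fun i _ => ?_
  rw [← Finset.sum_add_distrib]
  refine Finset.sum_congr rfl fun j _ => ?_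
  ring

lemma AA_sym (s : Fin n → Fin n → Bool) (i j : Fin n) : AA s i j = AA s j i := by
  unfold AA
  rcases lt_trichotomy i j with h | h | h
  · simp [h, h.not_gt]
  · subst h; rfl
  · simp [h, h.not_gt]

lemma AA_diag (s : Fin n → Fin n → Bool) (i : Fin n) : AA s i i = 0 := by
  unfold AA; simp

/-- the rows -/
lemma row_prob {d : ℝ} (h0 : 0 ≤ d) (h1 : d ≤ 1 / 2) (hn : 0 < n) (k : Fin n) {t : ℝ} (ht : 0 ≤ t) :
    ∑ s : Fin n → Fin n → Bool, (if ∑ j, DD (AA s) (2 * d) k j ≤ -t then wt d s else 0) ≤ exp (-(t ^ 2 / (2 * n))) := by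
  have hn0 : (0:ℝ) < n := by exact_mod_cast hn
  have h := chernoff (n := n) h0 h1 (fun i j => -((if i = k then 1 else 0) + (if j = k then 1 else 0))) hn0 ht (by
    have e : ∀ i j : Fin n, (if i < j then (-((if i = k then (1:ℝ) else 0) + (if j = k then 1 else 0))) ^ 2 else 0) =
        (if i = k then (if i < j then (1:ℝ) else 0) else 0) + (if j = k then (if i < j then (1:ℝ) else 0) else 0) := by
      intro i j
      by_cases h : i < j
      · by_cases h1 : i = k <;> by_cases h2 : j = k
        · exact absurd (h1.trans h2.symm) h.ne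
        · simp [h, h1, h2]
        · simp [h, h1, h2]
        · simp [h, h1, h2]
      · simp [h]
    simp only [e]
    rw [Finset.sum_congr rfl fun i _ => Finset.sum_add_distrib, Finset.sum_add_distrib]
    have e1 : ∑ i : Fin n, ∑ j : Fin n, (if i = k then (if i < j then (1:ℝ) else 0) else 0) = ∑ j : Fin n, (if k < j then (1:ℝ) else 0) := by
      rw [Finset.sum_comm]; simp
    have e2 : ∑ i : Fin n, ∑ j : Fin n, (if j = k then (if i < j then (1:ℝ) else 0) else 0) = ∑ i : Fin n, (if i < k then (1:ℝ) else 0) := by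
      simp
    rw [e1, e2, ← Finset.sum_add_distrib]
    calc ∑ i : Fin n, ((if k < i then (1:ℝ) else 0) + (if i < k then (1:ℝ) else 0)) ≤ ∑ _i : Fin n, (1:ℝ) := by
          refine Finset.sum_le_sum fun i _ => ?_
          rcases lt_trichotomy i k with h | h | h
          · simp [h, h.not_gt]
          · subst h; simp
          · simp [h, h.not_gt]
      _ = n := by simp)
  refine le_trans (le_of_eq ?_) h
  refine Finset.sum_congr rfl fun s _ => ?_
  have e3 : ∑ j, DD (AA s) (2 * d) k j = -∑ i, ∑ j, -((if i = k then (1:ℝ) else 0) + (if j = k then 1 else 0)) * XX (2 * d) s i j := by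
    have h2 := bil (2 * d) s (fun i => if i = k then 1 else 0) (fun _ => 1)
    have h3 : ∑ i, ∑ j, (if i = k then (1:ℝ) else 0) * DD (AA s) (2 * d) i j * 1 = ∑ j, DD (AA s) (2 * d) k j := by
      rw [Finset.sum_comm]; simp
    rw [← h3, h2, ← Finset.sum_neg_distrib]
    refine Finset.sum_congr rfl fun i _ => ?_
    rw [← Finset.sum_neg_distrib]
    refine Finset.sum_congr rfl fun j _ => ?_
    ring
  rw [e3]
  simp only [neg_le_neg_iff]

/-- bilinear forms -/
lemma bil_prob {d : ℝ} (h0 : 0 ≤ d) (h1 : d ≤ 1 / 2) (u v : Fin n → ℝ) {V t : ℝ} (hV : 0 < V) (ht : 0 ≤ t)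
    (huv : 2 * ((∑ i, u i ^ 2) * ∑ i, v i ^ 2) ≤ V) :
    ∑ s : Fin n → Fin n → Bool, (if t ≤ ∑ i, ∑ j, u i * DD (AA s) (2 * d) i j * v j then wt d s else 0) ≤
      exp (-(t ^ 2 / (2 * V))) := by
  have h := chernoff (n := n) h0 h1 (fun i j => u i * v j + u j * v i) hV ht (by
    refine le_trans ?_ huv
    have e : ∀ i j : Fin n, (if i < j then (u i * v j + u j * v i) ^ 2 else 0) ≤
        2 * ((if i < j then (u i ^ 2 * v j ^ 2) else 0) + (if i < j then u j ^ 2 * v i ^ 2 else 0)) := by
      intro i j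
      split_ifs
      · nlinarith [sq_nonneg (u i * v j - u j * v i)]
      · simp
    refine (Finset.sum_le_sum fun i _ => Finset.sum_le_sum fun j _ => e i j).trans ?_
    simp only [← Finset.mul_sum]
    rw [Finset.sum_congr rfl fun i _ => Finset.sum_add_distrib, Finset.sum_add_distrib,
      Finset.sum_comm (f := fun i j => if i < j then u j ^ 2 * v i ^ 2 else 0), ← Finset.sum_add_distrib, Finset.sum_mul_sum]
    refine mul_le_mul_of_nonneg_left (Finset.sum_le_sum fun i _ => ?_) (by norm_num)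
    rw [← Finset.sum_add_distrib]
    refine Finset.sum_le_sum fun j _ => ?_
    have := mul_nonneg (sq_nonneg (u i)) (sq_nonneg (v j))
    rcases lt_trichotomy i j with h | h | h
    · simp [h, h.not_gt]
    · subst h; simpa using this
    · simp [h, h.not_gt])
  refine le_trans (le_of_eq ?_) h
  refine Finset.sum_congr rfl fun s _ => ?_
  rw [bil]

end

end Pool.Agent.Q175.GS
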